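import Mathlib

namespace Pool.Agent.H.MP_49a0e9_an

open Filter Topology

noncomputable section

def q (n : ℕ) : ℝ := 1 / ((n : ℝ) + 3)

lemma q_pos (n : ℕ) : 0 < q n := by unfold q; positivity

lemma q_le (n : ℕ) : q n ≤ 1 / 3 := by
  unfold q
  apply one_div_le_one_div_of_le (by norm_num)
  have : (0 : ℝ) ≤ n := Nat.cast_nonneg n
  linarith

lemma q_le_one (n : ℕ) : q n ≤ 1 := (q_le n).trans (by norm_num)

lemma qp_pos (n i : ℕ) : 0 < q n ^ i := pow_pos (q_pos n) i

lemma qp_anti (n : ℕ) {i j : ℕ} (h : i ≤ j) : q n ^ j ≤ q n ^ i :=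
  pow_le_pow_of_le_one (q_pos n).le (q_le_one n) h

def w (n i : ℕ) (t : ℝ) : ℝ := q n ^ (i + 1) + q n ^ i * max 0 (Real.sin (t / q n ^ i))

lemma w_ge (n i : ℕ) (t : ℝ) : q n ^ (i + 1) ≤ w n i t := by
  unfold w
  have := mul_nonneg (qp_pos n i).le (le_max_left 0 (Real.sin (t / q n ^ i)))
  linarith

lemma w_pos (n i : ℕ) (t : ℝ) : 0 < w n i t := (qp_pos n _).trans_le (w_ge n i t)

lemma w_le (n i : ℕ) (t : ℝ) : w n i t ≤ 2 * q n ^ i := by
  unfold w
  have h1 : max 0 (Real.sin (t / q n ^ i)) ≤ 1 := max_le zero_le_one (Real.sin_le_one _)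
  have h2 := mul_le_mul_of_nonneg_left h1 (qp_pos n i).le
  have h3 : q n ^ (i + 1) ≤ q n ^ i := qp_anti n (Nat.le_succ i)
  linarith

lemma w_lip (n i : ℕ) (t s : ℝ) : |w n i t - w n i s| ≤ |t - s| := by
  have hp := qp_pos n i
  have e : w n i t - w n i s = q n ^ i *
      (max (Real.sin (t / q n ^ i)) 0 - max (Real.sin (s / q n ^ i)) 0) := by
    unfold w; rw [max_comm 0, max_comm 0]; ring
  rw [e, abs_mul, abs_of_pos hp]
  have h1 := abs_max_sub_max_le_abs (Real.sin (t / q n ^ i)) (Real.sin (s / q n ^ i)) 0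
  have h2 := Real.abs_sin_sub_sin_le (t / q n ^ i) (s / q n ^ i)
  have h3 : |t / q n ^ i - s / q n ^ i| = |t - s| / q n ^ i := by
    rw [← sub_div, abs_div, abs_of_pos hp]
  calc q n ^ i * |max (Real.sin (t / q n ^ i)) 0 - max (Real.sin (s / q n ^ i)) 0|
      ≤ q n ^ i * (|t - s| / q n ^ i) := by
        apply mul_le_mul_of_nonneg_left _ hp.le
        rw [← h3]; exact h1.trans h2
    _ = |t - s| := by field_simp

structure X where
  n : ℕ
  t : ℝ
  k : ℕ → Bool

def co (x : X) (i : ℕ) : ℝ := if x.k i then w x.n i x.t else 0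

lemma co_nonneg (x : X) (i : ℕ) : 0 ≤ co x i := by
  unfold co; split_ifs
  · exact (w_pos _ _ _).le
  · exact le_rfl

lemma co_le (x : X) (i : ℕ) : co x i ≤ 2 * q x.n ^ i := by
  unfold co; split_ifs
  · exact w_le _ _ _
  · have := qp_pos x.n i; linarith

def v (x : X) : BoundedContinuousFunction ℕ ℝ :=
  BoundedContinuousFunction.ofNormedAddCommGroupDiscrete (co x) 2 (fun i => by
    rw [Real.norm_eq_abs, abs_of_nonneg (co_nonneg x i)]
    have h1 := co_le x i
    have h2 : q x.n ^ i ≤ 1 := pow_le_one₀ (q_pos _).le (q_le_one _)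
    linarith)

lemma v_apply (x : X) (i : ℕ) : v x i = co x i := rfl

def Phi (x : X) : ℝ × ℝ × BoundedContinuousFunction ℕ ℝ := ((x.n : ℝ), x.t, v x)

lemma Phi_inj : Function.Injective Phi := by
  rintro ⟨n, t, k⟩ ⟨m, s, l⟩ h
  simp only [Phi, Prod.mk.injEq, Nat.cast_inj] at h
  obtain ⟨rfl, rfl, h⟩ := h
  congr 1
  funext i
  have hi : co ⟨n, t, k⟩ i = co ⟨n, t, l⟩ i := by rw [← v_apply, ← v_apply, h]
  have hw := w_pos n i t
  unfold co at hi
  cases hk : k i <;> cases hl : l i <;> simp [hk, hl] at hi ⊢ <;> linarith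

instance : MetricSpace X := MetricSpace.induced Phi Phi_inj inferInstance

lemma dist_eq (x y : X) :
    dist x y = max |(x.n : ℝ) - y.n| (max |x.t - y.t| (dist (v x) (v y))) := rfl

lemma dist_n (x y : X) : |(x.n : ℝ) - y.n| ≤ dist x y := by
  rw [dist_eq]; exact le_max_left _ _

lemma dist_t (x y : X) : |x.t - y.t| ≤ dist x y := by
  rw [dist_eq]; exact (le_max_left _ _).trans (le_max_right _ _)

lemma dist_co (x y : X) (i : ℕ) : |co x i - co y i| ≤ dist x y := by
  rw [dist_eq]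
  refine le_trans ?_ ((le_max_right _ _).trans (le_max_right _ _))
  exact BoundedContinuousFunction.dist_coe_le_dist (f := v x) (g := v y) i

lemma dist_le (x y : X) (D : ℝ) (hn : x.n = y.n) (ht : |x.t - y.t| ≤ D)
    (hc : ∀ i, |co x i - co y i| ≤ D) : dist x y ≤ D := by
  have hD : 0 ≤ D := (abs_nonneg _).trans ht
  rw [dist_eq]
  refine max_le (by rw [hn]; simpa using hD) (max_le ht ?_)
  exact (BoundedContinuousFunction.dist_le hD).2 hc

lemma n_eq (x y : X) (h : dist x y < 1) : x.n = y.n := by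
  have h1 := (dist_n x y).trans_lt h
  have h2 : |(x.n : ℤ) - y.n| < 1 := by
    have : ((|(x.n : ℤ) - y.n| : ℤ) : ℝ) < ((1 : ℤ) : ℝ) := by push_cast; exact h1
    exact_mod_cast this
  have := Int.abs_lt_one_iff.1 h2
  omega

lemma co_same (x y : X) (hn : x.n = y.n) (i : ℕ) (h : x.k i = y.k i) :
    |co x i - co y i| ≤ |x.t - y.t| := by
  unfold co
  rw [h, hn]
  split_ifs
  · exact w_lip _ _ _ _
  · simp

lemma co_any (x y : X) (hn : x.n = y.n) (i : ℕ) : |co x i - co y i| ≤ 2 * q x.n ^ i := by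
  have h1 := co_nonneg x i
  have h2 := co_nonneg y i
  have h3 := co_le x i
  have h4 := co_le y i
  rw [← hn] at h4
  rw [abs_le]; constructor <;> linarith

lemma up (x y : X) (hn : x.n = y.n) (J : ℕ) (h : ∀ i < J, x.k i = y.k i) :
    dist x y ≤ max |x.t - y.t| (2 * q x.n ^ J) := by
  refine dist_le x y _ hn (le_max_left _ _) fun i => ?_
  rcases lt_or_ge i J with hi | hi
  · exact (co_same x y hn i (h i hi)).trans (le_max_left _ _)
  · refine le_trans ?_ (le_max_right _ _)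
    have := qp_anti x.n hi
    have := co_any x y hn i
    linarith

lemma same_k (x y : X) (hn : x.n = y.n) (h : x.k = y.k) : dist x y ≤ |x.t - y.t| :=
  dist_le x y _ hn le_rfl fun i => co_same x y hn i (by rw [h])

lemma low (x y : X) (hn : x.n = y.n) (i : ℕ) (h : x.k i ≠ y.k i) :
    min (w x.n i x.t) (w x.n i y.t) ≤ dist x y := by
  refine le_trans ?_ (dist_co x y i)
  unfold co
  rw [← hn]
  cases hk : x.k i <;> cases hl : y.k i
  · exact absurd (hk.trans hl.symm) h
  · simp only [Bool.false_eq_true, if_false, if_true, zero_sub, abs_neg]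
    rw [abs_of_pos (w_pos _ _ _)]; exact min_le_right _ _
  · simp only [Bool.false_eq_true, if_false, if_true, sub_zero]
    rw [abs_of_pos (w_pos _ _ _)]; exact min_le_left _ _
  · exact absurd (hk.trans hl.symm) h

lemma low' (x y : X) (hn : x.n = y.n) (i : ℕ) (h : x.k i ≠ y.k i) :
    q x.n ^ (i + 1) ≤ dist x y :=
  (le_min (w_ge _ _ _) (w_ge _ _ _)).trans (low x y hn i h)

lemma narrow (n : ℕ) (t : ℝ) (k l : ℕ → Bool) (J : ℕ) (h : ∀ i < J, k i = l i)
    (hs : Real.sin (t / q n ^ J) ≤ 0) :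
    dist (⟨n, t, k⟩ : X) ⟨n, t, l⟩ ≤ 2 * q n ^ (J + 1) := by
  have hp := qp_pos n (J + 1)
  refine dist_le _ _ _ rfl (by simp; linarith) fun i => ?_
  rcases lt_trichotomy i J with hi | rfl | hi
  · refine (co_same (⟨n, t, k⟩ : X) ⟨n, t, l⟩ rfl i (h i hi)).trans ?_
    simp; linarith
  · have hw : w n i t = q n ^ (i + 1) := by
      unfold w; rw [max_eq_left hs]; ring
    unfold co
    simp only [hw]
    split_ifs
    · simp; linarith
    · rw [sub_zero, abs_of_pos hp]; linarith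
    · rw [zero_sub, abs_neg, abs_of_pos hp]; linarith
    · simp; linarith
  · have h1 := co_any (⟨n, t, k⟩ : X) ⟨n, t, l⟩ rfl i
    have h2 : q n ^ i ≤ q n ^ (J + 1) := qp_anti n (Nat.succ_le_of_lt hi)
    simp only at h1
    linarith

instance : CompleteSpace X := by
  refine Metric.complete_of_cauchySeq_tendsto fun u hu => ?_
  have hc := Metric.cauchySeq_iff'.1 hu
  obtain ⟨N0, hN0⟩ := hc 1 one_pos
  have hn : ∀ m ≥ N0, (u m).n = (u N0).n := fun m hm => n_eq _ _ (hN0 m hm)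
  set n := (u N0).n with hndef
  have ht : CauchySeq fun m => (u m).t := by
    rw [Metric.cauchySeq_iff'] 
    intro ε hε
    obtain ⟨N, hN⟩ := hc ε hε
    exact ⟨N, fun m hm => (dist_t _ _).trans_lt (hN m hm)⟩
  obtain ⟨T, hT⟩ := cauchySeq_tendsto_of_complete ht
  have hb : ∀ i, ∃ b : Bool, ∀ᶠ m in atTop, (u m).k i = b := by
    intro i
    obtain ⟨N, hN⟩ := Metric.cauchySeq_iff.1 hu _ (qp_pos n (i + 1))
    refine ⟨(u (max N N0)).k i, eventually_atTop.2 ⟨max N N0, fun m hm => ?_⟩⟩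
    by_contra hne
    have h1 := low' (u m) (u (max N N0))
      ((hn m ((le_max_right _ _).trans hm)).trans (hn _ (le_max_right _ _)).symm) i hne
    rw [hn m ((le_max_right _ _).trans hm)] at h1
    have h2 := hN m ((le_max_left _ _).trans hm) (max N N0) (le_max_left _ _)
    linarith
  choose k hk using hb
  refine ⟨⟨n, T, k⟩, Metric.tendsto_nhds.2 fun ε hε => ?_⟩
  obtain ⟨J, hJ⟩ := exists_pow_lt_of_lt_one (half_pos hε)
    ((q_le n).trans_lt (by norm_num : (1 / 3 : ℝ) < 1))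
  have e1 : ∀ᶠ m in atTop, ∀ i ∈ Finset.range J, (u m).k i = k i :=
    (Filter.eventually_all_finset _).2 fun i _ => hk i
  filter_upwards [e1, eventually_ge_atTop N0, Metric.tendsto_nhds.1 hT ε hε] with m h1 h2 h3
  refine (up (u m) ⟨n, T, k⟩ (hn m h2) J fun i hi => h1 i (Finset.mem_range.2 hi)).trans_lt ?_
  refine max_lt h3 ?_
  rw [hn m h2]; linarith

end

end Pool.Agent.H.MP_49a0e9_an
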