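import Pool.Agent.H.MP_49a0e9_an.A

namespace Pool.Agent.H.MP_49a0e9_an

open Filter Topology

noncomputable section

def bit (r : ℝ) (k : ℕ → Bool) (i : ℕ) : ℝ := if k i then r ^ i else 0

lemma bit_nonneg {r : ℝ} (hr : 0 ≤ r) (k : ℕ → Bool) (i : ℕ) : 0 ≤ bit r k i := by
  unfold bit; split_ifs
  · positivity
  · exact le_rfl

lemma bit_le {r : ℝ} (hr : 0 ≤ r) (k : ℕ → Bool) (i : ℕ) : bit r k i ≤ r ^ i := by
  unfold bit; split_ifs
  · exact le_rfl
  · positivity

lemma bit_summable {r : ℝ} (hr : 0 ≤ r) (hr1 : r < 1) (k : ℕ → Bool) : Summable (bit r k) :=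
  Summable.of_nonneg_of_le (bit_nonneg hr k) (bit_le hr k) (summable_geometric_of_lt_one hr hr1)

def sg (r : ℝ) (k : ℕ → Bool) : ℝ := ∑' i, bit r k i

lemma tail_bd {r : ℝ} (hr : 0 ≤ r) (hr1 : r ≤ 1 / 3) (k : ℕ → Bool) (j : ℕ) :
    0 ≤ ∑' i, bit r k (i + (j + 1)) ∧ ∑' i, bit r k (i + (j + 1)) ≤ r ^ j / 2 := by
  have h1 : r < 1 := by linarith
  refine ⟨tsum_nonneg fun i => bit_nonneg hr k _, ?_⟩
  have hs : HasSum (fun i => r ^ (j + 1) * r ^ i) (r ^ (j + 1) * (1 - r)⁻¹) :=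
    (hasSum_geometric_of_lt_one hr h1).mul_left _
  have h2 : ∑' i, bit r k (i + (j + 1)) ≤ r ^ (j + 1) * (1 - r)⁻¹ := by
    rw [← hs.tsum_eq]
    refine Summable.tsum_le_tsum (fun i => ?_)
      ((summable_nat_add_iff (j + 1)).2 (bit_summable hr h1 k)) hs.summable
    refine (bit_le hr k _).trans (le_of_eq ?_)
    rw [pow_add, mul_comm]
  refine h2.trans ?_
  have h3 : 0 < 1 - r := by linarith
  have h4 : r * (1 - r)⁻¹ ≤ 1 / 2 := by
    rw [← div_eq_mul_inv, div_le_iff₀ h3]; linarith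
  have h5 : 0 ≤ r ^ j := pow_nonneg hr j
  calc r ^ (j + 1) * (1 - r)⁻¹ = r ^ j * (r * (1 - r)⁻¹) := by ring
    _ ≤ r ^ j * (1 / 2) := mul_le_mul_of_nonneg_left h4 h5
    _ = r ^ j / 2 := by ring

lemma sg_bd {r : ℝ} (hr : 0 ≤ r) (hr1 : r ≤ 1 / 3) (k l : ℕ → Bool) (j : ℕ)
    (h : ∀ i < j, k i = l i) (hj : k j ≠ l j) :
    r ^ j / 2 ≤ |sg r k - sg r l| ∧ |sg r k - sg r l| ≤ 2 * r ^ j := by
  have h1 : r < 1 := by linarith
  have ek := (bit_summable hr h1 k).sum_add_tsum_nat_add (j + 1)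
  have el := (bit_summable hr h1 l).sum_add_tsum_nat_add (j + 1)
  rw [Finset.sum_range_succ] at ek el
  have e : ∑ i ∈ Finset.range j, bit r k i = ∑ i ∈ Finset.range j, bit r l i :=
    Finset.sum_congr rfl fun i hi => by unfold bit; rw [h i (Finset.mem_range.1 hi)]
  obtain ⟨a1, a2⟩ := tail_bd hr hr1 k j
  obtain ⟨b1, b2⟩ := tail_bd hr hr1 l j
  have h5 : 0 ≤ r ^ j := pow_nonneg hr j
  unfold sg
  rw [← ek, ← el, e]
  cases hk : k j <;> cases hl : l j
  · exact absurd (hk.trans hl.symm) hj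
  · have c1 : bit r k j = 0 := by simp [bit, hk]
    have c2 : bit r l j = r ^ j := by simp [bit, hl]
    rw [c1, c2]
    constructor
    · rw [le_abs]; right; linarith
    · rw [abs_le]; constructor <;> linarith
  · have c1 : bit r k j = r ^ j := by simp [bit, hk]
    have c2 : bit r l j = 0 := by simp [bit, hl]
    rw [c1, c2]
    constructor
    · rw [le_abs]; left; linarith
    · rw [abs_le]; constructor <;> linarith
  · exact absurd (hk.trans hl.symm) hj

def loc (x : X) : ℝ × ℝ := (x.t, sg (q x.n) x.k)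

lemma loc_bd (x y : X) (hn : x.n = y.n) :
    1 / 4 * dist x y ≤ ‖loc x - loc y‖ ∧ ‖loc x - loc y‖ ≤ 2 / q x.n * dist x y := by
  have e : ‖loc x - loc y‖ = max |x.t - y.t| |sg (q x.n) x.k - sg (q x.n) y.k| := by
    unfold loc; rw [← hn]; rfl
  have hq := q_pos x.n
  have hq1 := q_le x.n
  have hd : 0 ≤ dist x y := dist_nonneg
  have h2 : dist x y ≤ 2 / q x.n * dist x y := by
    have : 1 ≤ 2 / q x.n := by rw [le_div_iff₀ hq]; linarith
    nlinarith
  have ht := dist_t x y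
  rw [e]
  by_cases hk : x.k = y.k
  · have h1 := same_k x y hn hk
    rw [hk, sub_self, abs_zero, max_eq_left (abs_nonneg _)]
    constructor <;> linarith
  · have hex : ∃ j, x.k j ≠ y.k j := Function.ne_iff.1 hk
    classical
    have hj := Nat.find_spec hex
    have hlt : ∀ i < Nat.find hex, x.k i = y.k i := fun i hi => by
      have := Nat.find_min hex hi
      simpa using this
    set j := Nat.find hex
    obtain ⟨s1, s2⟩ := sg_bd hq.le hq1 x.k y.k j hlt hj
    have u := up x y hn j hlt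
    have l := low' x y hn j hj
    have m1 := le_max_left |x.t - y.t| |sg (q x.n) x.k - sg (q x.n) y.k|
    have m2 := le_max_right |x.t - y.t| |sg (q x.n) x.k - sg (q x.n) y.k|
    have ha := abs_nonneg (x.t - y.t)
    constructor
    · rcases le_max_iff.1 u with u | u <;> linarith
    · refine max_le (ht.trans h2) (s2.trans ?_)
      calc 2 * q x.n ^ j = 2 / q x.n * q x.n ^ (j + 1) := by rw [pow_succ]; field_simp
        _ ≤ 2 / q x.n * dist x y := mul_le_mul_of_nonneg_left l (by positivity)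

end

end Pool.Agent.H.MP_49a0e9_an
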