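import Pool.Agent.H.MP_49a0e9_an.B

namespace Pool.Agent.H.MP_49a0e9_an

open Filter Topology MeasureTheory

noncomputable section

variable {V : Type*} [NormedAddCommGroup V] [NormedSpace ℝ V]

def Q (r : ℝ) (j : ℕ) (u : ℝ → V) (t : ℝ) : V :=
  (Real.pi * r ^ j)⁻¹ • (u (t + Real.pi * r ^ j) - u t)

lemma Q_cont (r : ℝ) (j : ℕ) {u : ℝ → V} (hu : Continuous u) : Continuous (Q r j u) := by
  unfold Q; fun_prop

lemma Q_norm {r : ℝ} (hr : 0 < r) (j : ℕ) (u : ℝ → V) (t : ℝ) :
    ‖Q r j u t‖ = ‖u (t + Real.pi * r ^ j) - u t‖ / (Real.pi * r ^ j) := by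
  have : 0 < Real.pi * r ^ j := mul_pos Real.pi_pos (pow_pos hr j)
  unfold Q
  rw [norm_smul, Real.norm_eq_abs, abs_of_pos (inv_pos.2 this), div_eq_inv_mul]

lemma conv [CompleteSpace V] {r : ℝ} (hr : 0 < r) (hr1 : r < 1) {u : ℝ → V} {K : NNReal}
    (hu : LipschitzWith K u) (hd : ∀ᵐ t : ℝ, DifferentiableAt ℝ u t) {η : ℝ} (hη : 0 < η) :
    ∃ N, ∀ j ≥ N, ∫ t in (0 : ℝ)..1, ‖Q r j u t - Q r N u t‖ ≤ η := by
  have hQ : ∀ j t, ‖Q r j u t‖ ≤ K := by
    intro j t
    have hp : 0 < Real.pi * r ^ j := mul_pos Real.pi_pos (pow_pos hr j)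
    rw [Q_norm hr, div_le_iff₀ hp]
    have := hu.dist_le_mul (t + Real.pi * r ^ j) t
    rw [dist_eq_norm, Real.dist_eq, add_sub_cancel_left, abs_of_pos hp] at this
    exact this
  have hm : ∀ j, AEStronglyMeasurable (fun t => ‖Q r j u t - deriv u t‖)
      (volume.restrict (Set.Ioc (0 : ℝ) 1)) := fun j =>
    (((Q_cont r j hu.continuous).stronglyMeasurable.sub
      (stronglyMeasurable_deriv u)).norm).aestronglyMeasurable
  have hb : ∀ j t, ‖‖Q r j u t - deriv u t‖‖ ≤ 2 * (K : ℝ) := by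
    intro j t
    rw [norm_norm]
    have h1 := norm_sub_le (Q r j u t) (deriv u t)
    have h2 := hQ j t
    have h3 : ‖deriv u t‖ ≤ K := norm_deriv_le_of_lipschitz hu
    linarith
  have hi : ∀ j, Integrable (fun t => ‖Q r j u t - deriv u t‖)
      (volume.restrict (Set.Ioc (0 : ℝ) 1)) := fun j =>
    (integrable_const (2 * (K : ℝ))).mono' (hm j) (ae_of_all _ (hb j))
  have hs : Tendsto (fun j : ℕ => Real.pi * r ^ j) atTop (𝓝[≠] 0) := by
    refine tendsto_nhdsWithin_iff.2 ⟨?_, Eventually.of_forall fun j => ?_⟩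
    · simpa using (tendsto_pow_atTop_nhds_zero_of_lt_one hr.le hr1).const_mul Real.pi
    · exact (mul_pos Real.pi_pos (pow_pos hr j)).ne'
  have hl : Tendsto (fun j => ∫ t in Set.Ioc (0 : ℝ) 1, ‖Q r j u t - deriv u t‖) atTop
      (𝓝 (∫ _t in Set.Ioc (0 : ℝ) 1, (0 : ℝ))) := by
    refine tendsto_integral_of_dominated_convergence (fun _ => 2 * (K : ℝ)) hm
      (integrable_const _) (fun j => ae_of_all _ (hb j)) ?_
    filter_upwards [ae_restrict_of_ae hd] with t ht
    have h1 := (ht.hasDerivAt.tendsto_slope_zero).comp hs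
    exact tendsto_iff_norm_sub_tendsto_zero.1 h1
  rw [integral_zero] at hl
  obtain ⟨N, hN⟩ := eventually_atTop.1 (hl.eventually (gt_mem_nhds (half_pos hη)))
  refine ⟨N, fun j hj => ?_⟩
  rw [intervalIntegral.integral_of_le zero_le_one]
  have h1 := hN j hj
  have h2 := hN N le_rfl
  have h3 : ∫ t in Set.Ioc (0 : ℝ) 1, ‖Q r j u t - Q r N u t‖ ≤
      ∫ t in Set.Ioc (0 : ℝ) 1, (‖Q r j u t - deriv u t‖ + ‖Q r N u t - deriv u t‖) := by
    refine integral_mono_of_nonneg (ae_of_all _ fun t => norm_nonneg _) ((hi j).add (hi N))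
      (ae_of_all _ fun t => ?_)
    have := norm_sub_le (Q r j u t - deriv u t) (Q r N u t - deriv u t)
    simpa using this
  rw [integral_add (hi j) (hi N)] at h3
  linarith

lemma int_sin {ρ : ℝ} (h0 : 0 < ρ) (h1 : ρ ≤ 1) :
    1 / 4 ≤ ∫ t in (0 : ℝ)..1, Real.sin (t / ρ) ^ 2 := by
  rw [intervalIntegral.integral_comp_div (fun x => Real.sin x ^ 2) h0.ne', integral_sin_sq]
  simp only [zero_div, Real.sin_zero, zero_mul, zero_sub, sub_zero, smul_eq_mul]
  have h2 : Real.sin (1 / ρ) * Real.cos (1 / ρ) ≤ 1 / 2 := by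
    nlinarith [Real.sin_sq_add_cos_sq (1 / ρ), sq_nonneg (Real.sin (1 / ρ) - Real.cos (1 / ρ))]
  have h3 : ρ * (1 / ρ) = 1 := by field_simp
  nlinarith

lemma pigeon (N : (ℕ → Bool) → ℕ) :
    ∃ k l : ℕ → Bool, k ≠ l ∧ N k = N l ∧ ∀ i < N k + 3, k i = l i := by
  by_contra hcon
  have hinj : Function.Injective
      (fun k : ℕ → Bool => (N k, (List.range (N k + 3)).map k)) := by
    intro k l h
    by_contra hne
    simp only [Prod.mk.injEq] at h
    refine hcon ⟨k, l, hne, h.1, fun i hi => ?_⟩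
    have h2 := h.2
    rw [← h.1] at h2
    exact List.map_inj_left.1 h2 i (List.mem_range.2 hi)
  have : Countable (ℕ → Bool) := hinj.countable
  obtain ⟨f, hf⟩ := exists_surjective_nat (ℕ → Bool)
  obtain ⟨m, hm⟩ := hf fun i => !(f i i)
  have := congrFun hm m
  simp at this

omit [NormedSpace ℝ V] in
lemma osc (φ : X → V) {c C : ℝ} (hc : 0 < c) (hC : 0 ≤ C)
    (h : ∀ x y, c * dist x y ≤ ‖φ x - φ y‖ ∧ ‖φ x - φ y‖ ≤ C * dist x y)
    (n : ℕ) (k l : ℕ → Bool) (j : ℕ) (hlt : ∀ i < j, k i = l i) (hj : k j ≠ l j)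
    (a b : ℝ) (ha : 0 ≤ Real.sin (a / q n ^ j)) (hb : Real.sin (b / q n ^ j) ≤ 0) :
    c * (q n ^ j * Real.sin (a / q n ^ j) ^ 2) - C * (2 * q n ^ (j + 1)) ≤
      ‖(φ ⟨n, a, k⟩ - φ ⟨n, a, l⟩) - (φ ⟨n, b, k⟩ - φ ⟨n, b, l⟩)‖ := by
  have h1 := low (⟨n, a, k⟩ : X) ⟨n, a, l⟩ rfl j hj
  simp only [min_self] at h1
  have h2 := narrow n b k l j hlt hb
  have h3 : q n ^ j * Real.sin (a / q n ^ j) ^ 2 ≤ w n j a := by
    unfold w
    rw [max_eq_right ha]
    have h4 := Real.sin_le_one (a / q n ^ j)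
    have h5 : Real.sin (a / q n ^ j) ^ 2 ≤ Real.sin (a / q n ^ j) := by nlinarith
    have h6 := mul_le_mul_of_nonneg_left h5 (qp_pos n j).le
    have h7 := qp_pos n (j + 1)
    linarith
  have h4 := (mul_le_mul_of_nonneg_left (h3.trans h1) hc.le).trans (h _ _).1
  have h5 := (h _ _).2.trans (mul_le_mul_of_nonneg_left h2 hC)
  have h6 := norm_sub_norm_le (φ ⟨n, a, k⟩ - φ ⟨n, a, l⟩) (φ ⟨n, b, k⟩ - φ ⟨n, b, l⟩)
  linarith

theorem no_emb [CompleteSpace V]
    (hV : ∀ (f : ℝ → V) (K : NNReal), LipschitzWith K f → ∀ᵐ t : ℝ, DifferentiableAt ℝ f t)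
    (φ : X → V) {c C : ℝ} (hc : 0 < c) (hcC : c ≤ C)
    (h : ∀ x y, c * dist x y ≤ ‖φ x - φ y‖ ∧ ‖φ x - φ y‖ ≤ C * dist x y) : False := by
  have hC : 0 < C := hc.trans_le hcC
  obtain ⟨n, hn⟩ := exists_nat_ge (16 * C / c)
  have hq := q_pos n
  have hq1 := q_le n
  have hCq : C * q n ≤ c / 16 := by
    unfold q
    rw [div_le_iff₀ hc] at hn
    rw [mul_one_div, div_le_iff₀ (by positivity)]
    nlinarith
  have hlip : ∀ k, LipschitzWith ⟨C, hC.le⟩ (fun t => φ ⟨n, t, k⟩) := fun k =>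
    LipschitzWith.of_dist_le_mul fun t s => by
      rw [dist_eq_norm]
      exact (h _ _).2.trans (mul_le_mul_of_nonneg_left (same_k ⟨n, t, k⟩ ⟨n, s, k⟩ rfl rfl) hC.le)
  have hη : 0 < c / (32 * Real.pi) := by have := Real.pi_pos; positivity
  choose N hN using fun k => conv hq (by linarith) (hlip k) (hV _ _ (hlip k)) hη
  obtain ⟨k, l, hne, hNe, hag⟩ := pigeon N
  have hex : ∃ j, k j ≠ l j := Function.ne_iff.1 hne
  classical
  have hj := Nat.find_spec hex
  have hlt : ∀ i < Nat.find hex, k i = l i := fun i hi => by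
    have := Nat.find_min hex hi
    simpa using this
  set j := Nat.find hex
  have hjN : N k + 3 ≤ j := by
    by_contra hh
    exact hj (hag j (not_le.1 hh))
  have e1 := hN k j (by omega)
  have e2 := hN l j (by omega)
  rw [← hNe] at e2
  set M := N k
  set u : ℝ → V := fun t => φ ⟨n, t, k⟩ with hu
  set u' : ℝ → V := fun t => φ ⟨n, t, l⟩ with hu'
  have hpi := Real.pi_pos
  have hpj := qp_pos n j
  have hpM := qp_pos n M
  have key : ∀ t, c / Real.pi * Real.sin (t / q n ^ j) ^ 2 ≤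
      ‖Q (q n) j u t - Q (q n) M u t‖ + ‖Q (q n) j u' t - Q (q n) M u' t‖ +
        c / (6 * Real.pi) := by
    intro t
    have d1 : ∀ i, Q (q n) i u t - Q (q n) i u' t = Q (q n) i (u - u') t := by
      intro i; unfold Q; rw [← smul_sub]; congr 1; simp only [Pi.sub_apply]; abel
    have t1 : ‖Q (q n) j (u - u') t‖ ≤ ‖Q (q n) j u t - Q (q n) M u t‖ +
        ‖Q (q n) j u' t - Q (q n) M u' t‖ + ‖Q (q n) M (u - u') t‖ := by
      rw [← d1, ← d1]
      have : Q (q n) j u t - Q (q n) j u' t = (Q (q n) j u t - Q (q n) M u t) -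
        (Q (q n) j u' t - Q (q n) M u' t) + (Q (q n) M u t - Q (q n) M u' t) := by abel
      rw [this]
      exact (norm_add_le _ _).trans (add_le_add_left (norm_sub_le _ _) _)
    have g : ∀ s, ‖(u - u') s‖ ≤ C * (2 * q n ^ j) := by
      intro s
      have h1 := up (⟨n, s, k⟩ : X) ⟨n, s, l⟩ rfl j hlt
      simp only [sub_self, abs_zero] at h1
      rw [max_eq_right (by linarith)] at h1
      exact (h _ _).2.trans (mul_le_mul_of_nonneg_left h1 hC.le)
    have t2 : ‖Q (q n) M (u - u') t‖ ≤ c / (36 * Real.pi) := by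
      rw [Q_norm hq, div_le_div_iff₀ (by positivity) (by positivity)]
      have h1 := norm_sub_le ((u - u') (t + Real.pi * q n ^ M)) ((u - u') t)
      have h2 := g (t + Real.pi * q n ^ M)
      have h3 := g t
      have h4 : q n ^ j ≤ q n ^ (M + 3) := qp_anti n hjN
      have h5 : q n ^ 2 ≤ 1 / 9 := by nlinarith
      have h6 : C * q n ^ j ≤ c / 144 * q n ^ M := by
        calc C * q n ^ j ≤ C * q n ^ (M + 3) := mul_le_mul_of_nonneg_left h4 hC.le
          _ = (C * q n) * q n ^ 2 * q n ^ M := by ring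
          _ ≤ (c / 16) * (1 / 9) * q n ^ M := by gcongr
          _ = c / 144 * q n ^ M := by ring
      have h7 : ‖(u - u') (t + Real.pi * q n ^ M) - (u - u') t‖ ≤ c / 36 * q n ^ M := by linarith
      calc _ ≤ c / 36 * q n ^ M * (36 * Real.pi) := by gcongr
        _ = _ := by ring
    have sn : Real.sin ((t + Real.pi * q n ^ j) / q n ^ j) = -Real.sin (t / q n ^ j) := by
      rw [add_div, mul_div_assoc, div_self hpj.ne', mul_one, Real.sin_add_pi]
    have t3 : c * (q n ^ j * Real.sin (t / q n ^ j) ^ 2) - C * (2 * q n ^ (j + 1)) ≤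
        ‖(u - u') (t + Real.pi * q n ^ j) - (u - u') t‖ := by
      rcases le_total 0 (Real.sin (t / q n ^ j)) with hs | hs
      · rw [norm_sub_rev]
        exact osc φ hc hC.le h n k l j hlt hj t _ hs (by rw [sn]; linarith)
      · have := osc φ hc hC.le h n k l j hlt hj (t + Real.pi * q n ^ j) t
          (by rw [sn]; linarith) hs
        rw [sn, neg_sq] at this
        exact this
    have t4 : c / Real.pi * Real.sin (t / q n ^ j) ^ 2 - c / (8 * Real.pi) ≤
        ‖Q (q n) j (u - u') t‖ := by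
      rw [Q_norm hq, le_div_iff₀ (by positivity)]
      refine le_trans ?_ t3
      have h1 : C * (2 * q n ^ (j + 1)) ≤ c / 8 * q n ^ j := by
        calc C * (2 * q n ^ (j + 1)) = (C * q n) * (2 * q n ^ j) := by ring
          _ ≤ (c / 16) * (2 * q n ^ j) := by gcongr
          _ = _ := by ring
      have h2 : (c / Real.pi * Real.sin (t / q n ^ j) ^ 2 - c / (8 * Real.pi)) *
          (Real.pi * q n ^ j) = c * (q n ^ j * Real.sin (t / q n ^ j) ^ 2) - c / 8 * q n ^ j := by
        field_simp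
      rw [h2]; linarith
    have t5 : c / (36 * Real.pi) + c / (8 * Real.pi) ≤ c / (6 * Real.pi) := by
      have : c / (6 * Real.pi) - (c / (36 * Real.pi) + c / (8 * Real.pi)) = c / (72 * Real.pi) := by
        field_simp; norm_num
      have h2 : 0 < c / (72 * Real.pi) := by positivity
      linarith
    linarith
  have c1 : Continuous fun t => ‖Q (q n) j u t - Q (q n) M u t‖ :=
    ((Q_cont _ _ (hlip k).continuous).sub (Q_cont _ _ (hlip k).continuous)).norm
  have c2 : Continuous fun t => ‖Q (q n) j u' t - Q (q n) M u' t‖ :=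
    ((Q_cont _ _ (hlip l).continuous).sub (Q_cont _ _ (hlip l).continuous)).norm
  have c3 : Continuous fun t => c / Real.pi * Real.sin (t / q n ^ j) ^ 2 := by fun_prop
  have c4 : Continuous fun t => ‖Q (q n) j u t - Q (q n) M u t‖ +
      ‖Q (q n) j u' t - Q (q n) M u' t‖ := c1.add c2
  have c5 : Continuous fun t => ‖Q (q n) j u t - Q (q n) M u t‖ +
      ‖Q (q n) j u' t - Q (q n) M u' t‖ + c / (6 * Real.pi) := c4.add continuous_const
  have im := intervalIntegral.integral_mono_on (μ := volume) zero_le_one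
    (c3.intervalIntegrable 0 1) (c5.intervalIntegrable 0 1) (fun t _ => key t)
  rw [intervalIntegral.integral_add (c4.intervalIntegrable 0 1)
    (continuous_const.intervalIntegrable 0 1),
    intervalIntegral.integral_add (c1.intervalIntegrable 0 1) (c2.intervalIntegrable 0 1),
    intervalIntegral.integral_const_mul, intervalIntegral.integral_const] at im
  have i1 := int_sin hpj (pow_le_one₀ hq.le (q_le_one n))
  have i2 := mul_le_mul_of_nonneg_left i1 (div_pos hc hpi).le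
  have i3 : c / Real.pi * (1 / 4) - (c / (32 * Real.pi) + c / (32 * Real.pi) + c / (6 * Real.pi)) =
      c / (48 * Real.pi) := by field_simp; norm_num
  have i4 : 0 < c / (48 * Real.pi) := by positivity
  simp only [sub_zero, smul_eq_mul, one_mul] at im
  linarith

end

end Pool.Agent.H.MP_49a0e9_an
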